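import Pool.Agent.H44.OVN.Hgt
import Pool.Agent.H20.KA.TRC
import Pool.Agent.H5.K2.CLU

/-!
# OVN: from one radius to all radii

`flat_of_box`: the sum over all radii. `ov_of_flat`: the chain of contexts.
-/

set_option autoImplicit false

namespace Pool.OVN

open Finset Real MvPolynomial
open Pool.Agent.H49.Ent Pool.Agent.H32.Dense Pool.STK

namespace Ov

/-! ### Sums -/

/-- Telescoping with a step. -/
theorem tele (g : ℕ → ℝ) (A B k : ℕ) (hAB : A ≤ B) (M : ℝ)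
    (h0 : ∀ a, A ≤ a → a < B + k → 0 ≤ g a) (hM : ∀ a, A ≤ a → a < B + k → g a ≤ M) :
    ∑ a ∈ Ico A B, (g (a + k) - g a) ≤ k * M := by
  have h1 : ∀ a, g (a + k) - g a = ∑ i ∈ range k, (g (a + (i + 1)) - g (a + i)) := by
    intro a
    rw [Finset.sum_range_sub (fun i => g (a + i))]
    simp
  rw [Finset.sum_congr rfl fun a _ => h1 a, Finset.sum_comm]
  have h2 : ∀ i ∈ range k, ∑ a ∈ Ico A B, (g (a + (i + 1)) - g (a + i)) ≤ M := by
    intro i hi
    rw [Finset.mem_range] at hi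
    have h3 : ∑ a ∈ Ico A B, (g (a + (i + 1)) - g (a + i)) = g (B + i) - g (A + i) := by
      have := Finset.sum_Ico_consecutive (fun a => g (a + (i + 1)) - g (a + i)) (Nat.zero_le A) hAB
      have h4 : ∀ N : ℕ, ∑ a ∈ Ico 0 N, (g (a + (i + 1)) - g (a + i)) = g (N + i) - g (0 + i) := by
        intro N
        rw [← Finset.range_eq_Ico]
        have h5 := Finset.sum_range_sub (fun a => g (a + i)) N
        rw [← h5]
        refine Finset.sum_congr rfl fun a _ => ?_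
        have : a + (i + 1) = a + 1 + i := by omega
        rw [this]
      rw [h4, h4] at this
      linarith only [this]
    rw [h3]
    have h4 := h0 (A + i) (by omega) (by omega)
    have h5 := hM (B + i) (by omega) (by omega)
    linarith only [h4, h5]
  refine (Finset.sum_le_sum h2).trans ?_
  rw [Finset.sum_const, Finset.card_range, nsmul_eq_mul]

/-- The chain of contexts: sums over all radii instead of one chain. -/
theorem chain (Ψ u : ℕ → ℝ) (a₀ P s m X : ℕ) (C M : ℝ) (hs : 0 < s) (hsX : s ≤ X)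
    (hX : X ≤ m * s) (haP : a₀ ≤ P) (hC : 0 ≤ C) (hM : 0 ≤ M)
    (hstep : ∀ a a', a₀ ≤ a' → a' ≤ a → a ≤ P → a ≤ a' + s → Ψ a' ≤ Ψ a + u a + C)
    (hu : ∀ a, a₀ ≤ a → a ≤ P → u a ≤ M) (hu0 : ∀ a, 0 ≤ u a) (hP : Ψ P ≤ C) :
    s * Ψ a₀ ≤ s * ((m + 2) * (M + C)) + ∑ a ∈ Ico (a₀ + X) (P + 1), (u a + C) := by
  have hMC : 0 ≤ M + C := by linarith only [hC, hM]
  have hs0 : (0 : ℝ) < s := by exact_mod_cast hs
  have tr : ∀ (k a a' : ℕ), a₀ ≤ a' → a' ≤ a → a ≤ P → a ≤ a' + k * s →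
      Ψ a' ≤ Ψ a + k * (M + C) := by
    intro k
    induction k with
    | zero =>
      intro a a' _ h2 _ h4
      have : a = a' := by omega
      rw [this]
      simp
    | succ k ih =>
      intro a a' h1 h2 h3 h4
      push_cast
      have e : (k + 1) * s = k * s + s := by ring
      rw [e] at h4
      have hk : (0 : ℝ) ≤ k * (M + C) := by positivity
      by_cases h5 : a ≤ a' + s
      · have := hstep a a' h1 h2 h3 h5
        have := hu a (by omega) h3
        linarith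
      · have h6 := ih (a - s) a' h1 (by omega) (by omega) (by omega)
        have h7 := hstep a (a - s) (by omega) (by omega) h3 (by omega)
        have := hu a (by omega) h3
        linarith only [h6, h7, this]
  have hsum0 : 0 ≤ ∑ a ∈ Ico (a₀ + X) (P + 1), (u a + C) :=
    Finset.sum_nonneg fun a _ => add_nonneg (hu0 a) hC
  by_cases hc : P < a₀ + X + s
  · have h1 := tr (m + 1) P a₀ le_rfl haP le_rfl (by
      have : (m + 1) * s = m * s + s := by ring
      omega)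
    push_cast at h1
    have h2 : Ψ a₀ ≤ (m + 2) * (M + C) := by
      have : (m + 2) * (M + C) = (m + 1) * (M + C) + (M + C) := by ring
      linarith only [hM, hP, h1]
    have h3 := mul_le_mul_of_nonneg_left h2 hs0.le
    linarith only [hsum0, h3]
  push Not at hc
  obtain ⟨W, hW⟩ : ∃ W : ℕ → ℝ, W = fun a => ∑ i ∈ range s, Ψ (a + i) := ⟨_, rfl⟩
  have hW1 : ∀ a, a₀ ≤ a → a + s ≤ P → W a ≤ W (a + 1) + (u (a + s) + C) := by
    intro a h1 h2
    have e1 : W a + Ψ (a + s) = Ψ a + W (a + 1) := by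
      rw [hW]
      simp only
      rw [← Finset.sum_range_succ, Finset.sum_range_succ']
      have : ∀ i, Ψ (a + (i + 1)) = Ψ (a + 1 + i) := fun i => by
        have : a + (i + 1) = a + 1 + i := by omega
        rw [this]
      simp only [this, Nat.add_zero]
      ring
    have e2 := hstep (a + s) a h1 (by omega) h2 le_rfl
    linarith only [e1, e2]
  obtain ⟨a₁, ha₁⟩ : ∃ a₁, a₁ = a₀ + X - s := ⟨_, rfl⟩
  have hW2 : ∀ k : ℕ, a₁ + k + s ≤ P + 1 → W a₁ ≤ W (a₁ + k) +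
      ∑ a ∈ Ico (a₁ + s) (a₁ + k + s), (u a + C) := by
    intro k
    induction k with
    | zero => intro _; simp
    | succ k ih =>
      intro hk
      have h1 := ih (by omega)
      have h2 := hW1 (a₁ + k) (by omega) (by omega)
      have h3 : a₁ + (k + 1) + s = a₁ + k + s + 1 := by omega
      rw [h3, Finset.sum_Ico_succ_top (by omega)]
      have h4 : a₁ + k + 1 = a₁ + (k + 1) := by omega
      rw [h4] at h2
      linarith only [h1, h2]
  have h1 := hW2 (P + 1 - s - a₁) (by omega)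
  have e1 : a₁ + (P + 1 - s - a₁) = P + 1 - s := by omega
  have e2 : P + 1 - s + s = P + 1 := by omega
  have e3 : a₁ + s = a₀ + X := by omega
  rw [e1, e2, e3] at h1
  have h2 : W (P + 1 - s) ≤ s * (M + 2 * C) := by
    rw [hW]
    simp only
    have h3 : ∀ i ∈ range s, Ψ (P + 1 - s + i) ≤ M + 2 * C := by
      intro i hi
      rw [Finset.mem_range] at hi
      have h4 := hstep P (P + 1 - s + i) (by omega) (by omega) le_rfl (by omega)
      have h5 := hu P haP le_rfl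
      linarith only [hP, h4, h5]
    refine (Finset.sum_le_sum h3).trans ?_
    rw [Finset.sum_const, Finset.card_range, nsmul_eq_mul]
  have h3 : s * Ψ a₀ ≤ W a₁ + s * (m * (M + C)) := by
    rw [hW]
    simp only
    have h4 : ∀ i ∈ range s, Ψ a₀ - m * (M + C) ≤ Ψ (a₁ + i) := by
      intro i hi
      rw [Finset.mem_range] at hi
      have := tr m (a₁ + i) a₀ le_rfl (by omega) (by omega) (by omega)
      linarith only [this]
    have h5 := Finset.sum_le_sum h4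
    rw [Finset.sum_const, Finset.card_range, nsmul_eq_mul] at h5
    linarith only [h5]
  have h4 : (s : ℝ) * (M + 2 * C) ≤ s * (2 * (M + C)) :=
    mul_le_mul_of_nonneg_left (by linarith only [hM]) hs0.le
  have h5 : (s : ℝ) * ((m + 2) * (M + C)) = s * (2 * (M + C)) + s * (m * (M + C)) := by ring
  linarith only [h1, h2, h3, h4]

/-! ### The deficit of the base point -/

variable {n : ℕ}

theorem cel_det (d : SDat n) {a b : ℕ} (h : a ≤ b) : Det d.P (d.cel b) (d.cel a) := by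
  intro ω ω' _ _ e
  funext j
  have e1 := congrFun e j
  change ⌊(2 : ℝ) ^ b * d.y ω j⌋ = ⌊(2 : ℝ) ^ b * d.y ω' j⌋ at e1
  change ⌊(2 : ℝ) ^ a * d.y ω j⌋ = ⌊(2 : ℝ) ^ a * d.y ω' j⌋
  have e2 : ∀ v : ℝ, (2 : ℝ) ^ b * v = 2 ^ (b - a) * (2 ^ a * v) := by
    intro v
    rw [← mul_assoc, ← pow_add, Nat.sub_add_cancel h]
  rw [e2, e2] at e1
  rw [← Hgt.floor_ediv (b - a) (2 ^ a * d.y ω j), e1, Hgt.floor_ediv]

theorem df_add (d : SDat n) (hp : IsLaw d.P) {a b c : ℕ} (hab : a ≤ b) (hbc : b ≤ c) :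
    d.df a c = d.df a b + d.df b c := by
  have h1 := CH_chain hp.nonneg (d.cel c) (d.cel b) (fun ω => ((d.L ω, d.W ω), d.cel a ω))
  have h2 : CH d.P (fun ω => (d.cel c ω, d.cel b ω)) (fun ω => ((d.L ω, d.W ω), d.cel a ω)) =
      CH d.P (d.cel c) (fun ω => ((d.L ω, d.W ω), d.cel a ω)) := by
    refine CH_congr hp.nonneg ?_ ?_ (fun _ _ _ _ h => h) (fun _ _ _ _ h => h)
    · intro ω ω' _ _ h
      simp only [Prod.mk.injEq] at h
      exact h.1.1
    · intro ω ω' a1 a2 h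
      simp only [Prod.mk.injEq] at h ⊢
      exact ⟨h.1, cel_det d hbc ω ω' a1 a2 h.1⟩
  have h3 : CH d.P (d.cel c) (fun ω => (d.cel b ω, ((d.L ω, d.W ω), d.cel a ω))) =
      CH d.P (d.cel c) (fun ω => ((d.L ω, d.W ω), d.cel b ω)) := by
    refine CH_congr hp.nonneg ?_ ?_ ?_ ?_
    · intro ω ω' _ _ h
      simp only [Prod.mk.injEq] at h
      exact h.1
    · intro ω ω' _ _ h
      simp only [Prod.mk.injEq] at h
      exact h.1
    · intro ω ω' _ _ h
      simp only [Prod.mk.injEq] at h ⊢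
      exact ⟨h.2.1, h.1⟩
    · intro ω ω' a1 a2 h
      simp only [Prod.mk.injEq] at h ⊢
      exact ⟨h.2, h.1, cel_det d hab ω ω' a1 a2 h.2⟩
  unfold SDat.df
  rw [h2, h3] at h1
  rw [h1]
  ring

theorem df_nonneg (d : SDat n) (hp : IsLaw d.P) {a b : ℕ} (hab : a ≤ b) : 0 ≤ d.df a b := by
  have h1 := Pool.KA.TRC.CH_floor hp d.y (fun ω => (d.L ω, d.W ω)) a (b - a)
  have e : a + (b - a) = b := by omega
  rw [e, Nat.cast_sub hab] at h1
  have h2 : CH d.P (d.cel b) (fun ω => ((d.L ω, d.W ω), d.cel a ω)) ≤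
      CH d.P (fun ω => fl b (d.y ω)) (fun ω => (fl a (d.y ω), (d.L ω, d.W ω))) := by
    refine le_of_eq (CH_congr hp.nonneg ?_ ?_ ?_ ?_)
    · intro ω ω' _ _ h
      simp only [Prod.mk.injEq] at h
      exact h.1
    · intro ω ω' _ _ h
      simp only [Prod.mk.injEq] at h
      exact h.1
    · intro ω ω' _ _ h
      simp only [Prod.mk.injEq] at h ⊢
      exact ⟨h.2, h.1.1, h.1.2⟩
    · intro ω ω' a1 a2 h
      simp only [Prod.mk.injEq] at h ⊢
      exact ⟨h.2, h.1⟩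
  unfold SDat.df
  linarith only [h1, h2]

theorem df_le_of_full (d : SDat n) {a b : ℕ} {δ : ℝ} (h : d.Full a b δ) : d.df a b ≤ δ := by
  unfold SDat.Full at h
  unfold SDat.df
  linarith only [h]

/-! ### Trivial bounds -/

/-- The number of values of the position in the box. -/
theorem nh_mem (d : SDat n) (K a P X : ℕ) (ω : d.Om) :
    0 ≤ d.nh K a P X ω ∧ (d.nh K a P X ω : ℝ) ≤ (Fintype.card (Pool.M5.Mon n K) + 1) * 2 ^ X := by
  have h2 : (0 : ℤ) < 2 ^ X := by positivity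
  have hd : ∀ t : ℤ, (0 : ℝ) ≤ ((t % 2 ^ X : ℤ) : ℝ) ∧ ((t % 2 ^ X : ℤ) : ℝ) ≤ 2 ^ X := by
    intro t
    have h3 := Int.emod_nonneg t h2.ne'
    have h4 := Int.emod_lt_of_pos t h2
    constructor
    · exact_mod_cast h3
    · have : ((t % 2 ^ X : ℤ) : ℝ) ≤ ((2 ^ X : ℤ) : ℝ) := by exact_mod_cast h4.le
      push_cast at this
      exact this
  obtain ⟨S, hS⟩ : ∃ S : ℝ, S = ∑ s : Pool.M5.Mon n K, ((hz (P + X) (d.ger a ω)
      (Finsupp.equivFunOnFinite.symm s) % 2 ^ X : ℤ) : ℝ) *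
    Pool.M5.mono (s : Fin n → ℕ) (fun j => Int.fract ((d.cel (P + X) ω j : ℝ) / 2 ^ (P + X - a))) :=
    ⟨_, rfl⟩
  have hm : ∀ s : Pool.M5.Mon n K, 0 ≤ Pool.M5.mono (s : Fin n → ℕ)
      (fun j => Int.fract ((d.cel (P + X) ω j : ℝ) / 2 ^ (P + X - a))) ∧
      Pool.M5.mono (s : Fin n → ℕ)
      (fun j => Int.fract ((d.cel (P + X) ω j : ℝ) / 2 ^ (P + X - a))) ≤ 1 := fun s =>
    Hgt.mono_mem s fun j => ⟨Int.fract_nonneg _, (Int.fract_lt_one _).le⟩
  have hS0 : 0 ≤ S := by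
    rw [hS]
    exact Finset.sum_nonneg fun s _ => mul_nonneg (hd _).1 (hm s).1
  have hS1 : S ≤ Fintype.card (Pool.M5.Mon n K) * 2 ^ X := by
    rw [hS]
    calc _ ≤ ∑ _s : Pool.M5.Mon n K, (2 : ℝ) ^ X * 1 :=
          Finset.sum_le_sum fun s _ => mul_le_mul (hd _).2 (hm s).2 (hm s).1 (by positivity)
      _ = _ := by
        rw [Finset.sum_const, Finset.card_univ, nsmul_eq_mul, mul_one]
  have e : d.nh K a P X ω = ⌊S⌋ + hz (P + X) (d.ger a ω) 0 % 2 ^ X := by
    rw [hS]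
    rfl
  rw [e]
  constructor
  · exact add_nonneg (Int.floor_nonneg.2 hS0) (Int.emod_nonneg _ h2.ne')
  · push_cast
    have h3 := Int.floor_le S
    have h4 := (hd (hz (P + X) (d.ger a ω) 0)).2
    have h5 : ((Fintype.card (Pool.M5.Mon n K) : ℝ) + 1) * 2 ^ X =
        Fintype.card (Pool.M5.Mon n K) * 2 ^ X + 2 ^ X := by ring
    rw [h5]
    linarith only [hS1, h3, h4]

/-- The entropy of the height. -/
theorem fh_le (n K : ℕ) (D : ℝ) : ∃ C : ℝ, 0 ≤ C ∧ ∀ (d : SDat n) (a₀ a P X : ℕ),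
    d.OK K a₀ (P + X) D → a₀ ≤ a → a ≤ P → d.fh a P X ≤ X * Real.log 2 + C := by
  obtain ⟨C₀, hC₀⟩ := hgt_thm n K D
  obtain ⟨N, hN⟩ : ∃ N : ℝ, N = Fintype.card (Pool.M5.Mon n K) + 1 := ⟨_, rfl⟩
  have hN1 : 1 ≤ N := by
    rw [hN]
    have : (0 : ℝ) ≤ Fintype.card (Pool.M5.Mon n K) := Nat.cast_nonneg _
    linarith
  refine ⟨Real.log (2 * (N + 2 * C₀) + 1), Real.log_nonneg ?_, ?_⟩
  · have : (0 : ℝ) ≤ C₀ := Nat.cast_nonneg _
    linarith only [hN]
  intro d a₀ a P X hd haa haP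
  have hC0 : (0 : ℝ) ≤ C₀ := Nat.cast_nonneg _
  obtain ⟨Φ, hΦ⟩ := hC₀ d a₀ a P X hd haa haP
  have h1 := CH_le_int hd.law.nonneg hd.law.sum_one (d.ht (P + X))
    (fun ω => (d.ctx a P ω, d.cel (P + X) ω)) (fun _ => N * 2 ^ X + 2 * C₀) (by
      intro ω ω' hω hω' hW
      have k1 := hΦ ω hω
      have k2 := hΦ ω' hω'
      rw [hW] at k1
      obtain ⟨F, hF⟩ : ∃ F, F = Φ (d.ctx a P ω', d.cel (P + X) ω') := ⟨_, rfl⟩
      rw [← hF] at k1 k2
      have m1 := nh_mem d K a P X ω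
      have m2 := nh_mem d K a P X ω'
      rw [← hN] at m1 m2
      have m1' : (0 : ℝ) ≤ (d.nh K a P X ω : ℝ) := by exact_mod_cast m1.1
      have m2' : (0 : ℝ) ≤ (d.nh K a P X ω' : ℝ) := by exact_mod_cast m2.1
      have k1' : |((d.ht (P + X) ω : ℝ) - d.nh K a P X ω - F)| ≤ C₀ := by exact_mod_cast k1
      have k2' : |((d.ht (P + X) ω' : ℝ) - d.nh K a P X ω' - F)| ≤ C₀ := by exact_mod_cast k2
      rw [abs_le] at k1' k2'
      push_cast
      rw [abs_le]
      constructor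
      · linarith only [k1'.1, k2'.2, m1', m2.2]
      · linarith only [k1'.2, k2'.1, m2', m1.2])
  rw [Ex_const hd.law.sum_one] at h1
  have h2 : Real.log (2 * (N * 2 ^ X + 2 * C₀) + 1) ≤
      X * Real.log 2 + Real.log (2 * (N + 2 * C₀) + 1) := by
    have e1 : X * Real.log 2 + Real.log (2 * (N + 2 * C₀) + 1) =
        Real.log (2 ^ X * (2 * (N + 2 * C₀) + 1)) := by
      rw [Real.log_mul (by positivity) (by positivity), Real.log_pow]
    rw [e1]
    refine Real.log_le_log (by positivity) ?_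
    have h3 : (1 : ℝ) ≤ 2 ^ X := one_le_pow₀ (by norm_num)
    nlinarith only [h3]
  unfold SDat.fh
  linarith only [h1, h2]

/-- The trivial bound of the entropy of the shape. -/
theorem shp_le (n K : ℕ) : ∃ C : ℝ, 0 ≤ C ∧ ∀ (d : SDat n) (a P X : ℕ), IsLaw d.P →
    (∀ l, (d.G l).totalDegree ≤ K) →
    CH d.P (d.shp a (P + X)) (d.ctx a P) ≤ C * (X + 1) := by
  classical
  obtain ⟨N, hN⟩ : ∃ N, N = Fintype.card (Pool.M5.Mon n K) := ⟨_, rfl⟩
  refine ⟨N * Real.log 5, by positivity, ?_⟩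
  intro d a P X hp hdeg
  obtain ⟨e⟩ : Nonempty (Pool.M5.Mon n K ≃ Fin N) := by
    rw [hN]
    exact ⟨Fintype.equivFin _⟩
  obtain ⟨v, hv⟩ : ∃ v : d.Om → Fin N → ℤ, v = fun ω k => hz (P + X) (d.ger a ω)
    (Finsupp.equivFunOnFinite.symm (e.symm k : Fin n → ℕ)) := ⟨_, rfl⟩
  have h1 : CH d.P (d.shp a (P + X)) (d.ctx a P) ≤ CH d.P v (d.ctx a P) := by
    refine CH_mono_left hp.nonneg ?_
    intro ω ω' _ _ h
    have hvv := (Prod.ext_iff.1 h).1
    simp only at hvv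
    funext s
    unfold SDat.shp
    by_cases hs : s = 0
    · rw [if_pos hs, if_pos hs]
    rw [if_neg hs, if_neg hs]
    by_cases hm : (s : Fin n → ℕ) ∈ Pool.M5.Mon n K
    · have h2 := congrFun hvv (e ⟨(s : Fin n → ℕ), hm⟩)
      rw [hv] at h2
      simp only [Equiv.symm_apply_apply] at h2
      have h3 : Finsupp.equivFunOnFinite.symm (s : Fin n → ℕ) = s := by
        exact Finsupp.equivFunOnFinite.symm_apply_apply s
      rw [h3] at h2
      exact h2
    · have h2 : ∀ ω, hz (P + X) (d.ger a ω) s = 0 := by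
        intro ω
        have h3 : coeff s (d.ger a ω) = 0 := by
          by_contra hne
          have h4 : s ∈ (d.ger a ω).support := mem_support_iff.2 hne
          have h5 := (le_totalDegree h4).trans ((Hgt.totalDegree_pul _ _ _).trans (hdeg _))
          rw [Finsupp.sum_fintype _ _ (fun _ => rfl)] at h5
          refine hm ?_
          unfold Pool.M5.Mon
          rw [Finset.mem_filter, Fintype.mem_piFinset]
          refine ⟨fun j => ?_, ?_, h5⟩
          · rw [Finset.mem_range]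
            have h3 : s j ≤ ∑ j, s j :=
              Finset.single_le_sum (fun _ _ => Nat.zero_le _) (Finset.mem_univ j)
            omega
          · by_contra h3
            push Not at h3
            have h4 : ∑ j, s j = 0 := by omega
            rw [Finset.sum_eq_zero_iff] at h4
            exact hs (Finsupp.ext fun j => h4 j (Finset.mem_univ j))
        unfold hz
        rw [h3, mul_zero, Int.floor_zero]
      rw [h2, h2]
  have h2 := CH_le_vec hp.nonneg hp.sum_one v (d.ctx a P) (fun _ => (2 : ℝ) ^ X + 1) (by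
    intro ω ω' _ _ hW k
    have h3 : hz P (d.ger a ω) = hz P (d.ger a ω') := by
      have := congrArg (fun z : d.Wt × (Fin n → ℤ) × ((Fin n →₀ ℕ) → ℤ) => z.2.2) hW
      exact this
    obtain ⟨s, hs⟩ : ∃ s : Fin n →₀ ℕ, s =
      Finsupp.equivFunOnFinite.symm (e.symm k : Fin n → ℕ) := ⟨_, rfl⟩
    rw [hv]
    simp only
    rw [← hs]
    have h4 := congrFun h3 s
    unfold hz at h4 ⊢
    obtain ⟨α, hα⟩ : ∃ α, α = coeff s (d.ger a ω) := ⟨_, rfl⟩
    obtain ⟨β, hβ⟩ : ∃ β, β = coeff s (d.ger a ω') := ⟨_, rfl⟩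
    rw [← hα, ← hβ] at h4 ⊢
    have a1 := Int.floor_le ((2 : ℝ) ^ P * α)
    have a2 := Int.lt_floor_add_one ((2 : ℝ) ^ P * α)
    have b1 := Int.floor_le ((2 : ℝ) ^ P * β)
    have b2 := Int.lt_floor_add_one ((2 : ℝ) ^ P * β)
    rw [h4] at a1 a2
    have c1 := Int.floor_le ((2 : ℝ) ^ (P + X) * α)
    have c2 := Int.lt_floor_add_one ((2 : ℝ) ^ (P + X) * α)
    have d1 := Int.floor_le ((2 : ℝ) ^ (P + X) * β)
    have d2 := Int.lt_floor_add_one ((2 : ℝ) ^ (P + X) * β)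
    have hX : (0 : ℝ) < 2 ^ X := by positivity
    have e1 : ∀ t : ℝ, (2 : ℝ) ^ (P + X) * t = 2 ^ X * (2 ^ P * t) := fun t => by
      rw [pow_add]; ring
    rw [e1] at c1 c2 d1 d2
    have f1 : (2 : ℝ) ^ X * (2 ^ P * α) - 2 ^ X * (2 ^ P * β) ≤ 2 ^ X := by
      have : (2 : ℝ) ^ P * α - 2 ^ P * β ≤ 1 := by linarith only [a2, b1]
      nlinarith only [a2, hX, b1]
    have f2 : (2 : ℝ) ^ X * (2 ^ P * β) - 2 ^ X * (2 ^ P * α) ≤ 2 ^ X := by
      have : (2 : ℝ) ^ P * β - 2 ^ P * α ≤ 1 := by linarith only [a1, b2]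
      nlinarith only [a1, hX, b2]
    rw [e1, e1]
    push_cast
    rw [abs_le]
    constructor <;> linarith)
  rw [Ex_const hp.sum_one] at h2
  have h3 : Real.log (2 * ((2 : ℝ) ^ X + 1) + 1) ≤ Real.log 5 * (X + 1) := by
    have hX : (1 : ℝ) ≤ 2 ^ X := one_le_pow₀ (by norm_num)
    have e1 : Real.log 5 * (X + 1) = Real.log (5 ^ X * 5) := by
      rw [Real.log_mul (by positivity) (by norm_num), Real.log_pow]
      ring
    rw [e1]
    refine Real.log_le_log (by positivity) ?_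
    have : (2 : ℝ) ^ X ≤ 5 ^ X := pow_le_pow_left₀ (by norm_num) (by norm_num) X
    linarith only [hX, this]
  have h4 : (N : ℝ) * Real.log (2 * ((2 : ℝ) ^ X + 1) + 1) ≤ N * (Real.log 5 * (X + 1)) :=
    mul_le_mul_of_nonneg_left h3 (Nat.cast_nonneg _)
  calc _ ≤ _ := h1
    _ ≤ _ := h2
    _ ≤ _ := h4
    _ = _ := by ring

end Ov

open Ov

/-- **(FLAT)** from one radius. -/
theorem flat_of_box (hB : BOXStmt) : FLATStmt := by
  intro n K c ε D hc hε
  obtain ⟨κ, π₀, δ₀, C₁, k', X₀, hκ, hκ1, hπ, hδ₀, hC₁, hbox⟩ := hB n K c ε D hc hε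
  obtain ⟨Cf, hCf, hfh⟩ := fh_le n K D
  refine ⟨κ, π₀, δ₀, C₁ * (2 + k' + Cf), max X₀ (k' + 1), hκ, hκ1, hπ, hδ₀, by positivity, ?_⟩
  intro d a₀ P X δ hX haP hOK hF hFP hNF
  have hX₀ : X₀ ≤ X := (le_max_left _ _).trans hX
  have hk' : k' + 1 ≤ X := (le_max_right _ _).trans hX
  have hp := hOK.law
  have hXr : (0 : ℝ) ≤ X := Nat.cast_nonneg _
  have hX1 : (1 : ℝ) ≤ X := by
    have : 1 ≤ X := by omega
    exact_mod_cast this
  have hδ : ∀ a, a₀ ≤ a → a ≤ P + X → d.df a₀ a ≤ δ := by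
    intro a h1 h2
    have h3 := df_add d hp h1 h2
    have h4 := df_nonneg d hp h2
    have h5 := df_le_of_full d hF
    linarith only [h3, h4, h5]
  have hδ0 : 0 ≤ δ := (df_nonneg d hp le_rfl).trans (hδ a₀ le_rfl (by omega))
  have hMi : ∀ a, 0 ≤ d.Mi a P X := fun a => Pool.CLU.MI_nonneg hp.nonneg _ _ _
  obtain ⟨I, hI⟩ : ∃ I, I = Ico (a₀ + X) (P + 1) := ⟨_, rfl⟩
  rw [← hI]
  have hMi0 : 0 ≤ ∑ a ∈ I, d.Mi a P X := Finset.sum_nonneg fun a _ => hMi a
  -- the four sums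
  have s1 : ∑ a ∈ I, d.df a (a + X) ≤ X * δ := by
    by_cases hc : a₀ + X ≤ P + 1
    · have h1 := tele (fun a => d.df a₀ a) (a₀ + X) (P + 1) X hc δ
        (fun a h1 h2 => df_nonneg d hp (by omega)) (fun a h1 h2 => hδ a (by omega) (by omega))
      rw [hI]
      refine le_trans (le_of_eq (Finset.sum_congr rfl fun a ha => ?_)) h1
      rw [Finset.mem_Ico] at ha
      have := df_add d hp (a := a₀) (b := a) (c := a + X) (by omega) (by omega)
      linarith only [this]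
    · rw [hI, Finset.Ico_eq_empty (by omega), Finset.sum_empty]
      positivity
  have s2 : ∑ a ∈ I, d.df a (a + k') ≤ k' * δ := by
    by_cases hc : a₀ + X ≤ P + 1
    · have h1 := tele (fun a => d.df a₀ a) (a₀ + X) (P + 1) k' hc δ
        (fun a h1 h2 => df_nonneg d hp (by omega)) (fun a h1 h2 => hδ a (by omega) (by omega))
      rw [hI]
      refine le_trans (le_of_eq (Finset.sum_congr rfl fun a ha => ?_)) h1
      rw [Finset.mem_Ico] at ha
      have := df_add d hp (a := a₀) (b := a) (c := a + k') (by omega) (by omega)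
      linarith only [this]
    · rw [hI, Finset.Ico_eq_empty (by omega), Finset.sum_empty]
      positivity
  have s3 : ∑ a ∈ I, (d.fh a P X - d.fh (a - X) P X) ≤ X * (X + Cf) := by
    have hlog : Real.log 2 ≤ 1 := by
      have := Real.log_two_lt_d9
      linarith only [this]
    have hM : (X : ℝ) * Real.log 2 + Cf ≤ X + Cf := by nlinarith only [hlog]
    by_cases hc : a₀ + X ≤ P + 1
    · have h1 := tele (fun a => d.fh a P X) a₀ (P + 1 - X) X (by omega) (X + Cf)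
        (fun a h1 h2 => CH_nonneg hp.nonneg _ _)
        (fun a h1 h2 => (hfh d a₀ a P X hOK h1 (by omega)).trans hM)
      refine le_trans (le_of_eq ?_) h1
      rw [hI]
      have e1 : P + 1 = P + 1 - X + X := by omega
      rw [e1, ← Finset.sum_Ico_add' (fun a => d.fh a P X - d.fh (a - X) P X) a₀ (P + 1 - X) X]
      refine Finset.sum_congr ?_ fun a _ => ?_
      · rw [← e1]
      · simp only [Nat.add_sub_cancel]
    · rw [hI, Finset.Ico_eq_empty (by omega), Finset.sum_empty]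
      positivity
  have s4 : ∑ _a ∈ I, ε * (X : ℝ) ≤ ε * X * ((P : ℝ) - a₀) := by
    rw [Finset.sum_const, nsmul_eq_mul, hI, Nat.card_Ico]
    have h1 : ((P + 1 - (a₀ + X) : ℕ) : ℝ) ≤ (P : ℝ) - a₀ := by
      have h2 : P + 1 - (a₀ + X) ≤ P - a₀ := by omega
      have h3 : ((P + 1 - (a₀ + X) : ℕ) : ℝ) ≤ ((P - a₀ : ℕ) : ℝ) := by exact_mod_cast h2
      rwa [Nat.cast_sub haP] at h3
    have h2 : 0 ≤ ε * (X : ℝ) := by positivity
    nlinarith only [h1, h2]
  have key : ∑ a ∈ I, CH d.P (d.shp a (P + X)) (d.ctx a P) ≤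
      ∑ a ∈ I, (ε * X + C₁ * (d.df a (a + X) +
        X * d.df a (a + k') + d.Mi a P X + (d.fh a P X - d.fh (a - X) P X))) := by
    refine Finset.sum_le_sum fun a ha => ?_
    rw [hI, Finset.mem_Ico] at ha
    exact hbox d a₀ P X a hX₀ hOK hFP hNF ha.1 (by omega)
  refine key.trans ?_
  have key2 : ∑ a ∈ I, (ε * X + C₁ * (d.df a (a + X) +
        X * d.df a (a + k') + d.Mi a P X + (d.fh a P X - d.fh (a - X) P X))) =
      (∑ _a ∈ I, ε * (X : ℝ)) + C₁ * ((∑ a ∈ I, d.df a (a + X)) + X * (∑ a ∈ I, d.df a (a + k')) +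
      (∑ a ∈ I, d.Mi a P X) + ∑ a ∈ I, (d.fh a P X - d.fh (a - X) P X)) := by
    rw [Finset.sum_add_distrib]
    congr 1
    rw [← Finset.mul_sum, Finset.sum_add_distrib, Finset.sum_add_distrib,
      Finset.sum_add_distrib]
    congr 4
    rw [← Finset.mul_sum]
  rw [key2]
  have t1 : C₁ * ((∑ a ∈ I, d.df a (a + X)) + X * (∑ a ∈ I, d.df a (a + k')) +
      (∑ a ∈ I, d.Mi a P X) + ∑ a ∈ I, (d.fh a P X - d.fh (a - X) P X)) ≤
      C₁ * (X * δ + X * (k' * δ) + (∑ a ∈ I, d.Mi a P X) + X * (X + Cf)) := by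
    refine mul_le_mul_of_nonneg_left ?_ hC₁
    have := mul_le_mul_of_nonneg_left s2 hXr
    linarith only [s1, s3, this]
  have t2 : X * δ + X * (k' * δ) + (∑ a ∈ I, d.Mi a P X) + X * (X + Cf) ≤
      (2 + k' + Cf) * (X * (X + δ)) + (2 + k' + Cf) * ∑ a ∈ I, d.Mi a P X := by
    have hk0 : (0 : ℝ) ≤ k' := Nat.cast_nonneg _
    have u1 : 0 ≤ (1 + k' + Cf) * ∑ a ∈ I, d.Mi a P X := by positivity
    have u2 : 0 ≤ X * δ := by positivity
    have u3 : 0 ≤ (1 + (k' : ℝ) ) * (X * X) := by positivity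
    have u4 : 0 ≤ Cf * (X * δ) := by positivity
    have u5 : 0 ≤ Cf * (X * X - X) := by
      refine mul_nonneg hCf ?_
      nlinarith only [hX1]
    nlinarith only [u1, u2, u3, u4, u5]
  have t3 := mul_le_mul_of_nonneg_left t2 hC₁
  have t4 : C₁ * ((2 + k' + Cf) * (X * (X + δ)) + (2 + k' + Cf) * ∑ a ∈ I, d.Mi a P X) =
      C₁ * (2 + k' + Cf) * X * (X + δ) + C₁ * (2 + k' + Cf) * ∑ a ∈ I, d.Mi a P X := by ring
  linarith only [s4, t1, t3]

/-- **(OV)** from the sum over all radii. -/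
theorem ov_of_flat (hFL : FLATStmt) (hR : RUPStmt) (hS : STAStmt) : OVStmt := by
  intro n K c ε D hc hε
  obtain ⟨R, hRdef⟩ : ∃ R : ℝ, R = 2 * (K + 1) := ⟨_, rfl⟩
  have hR2 : 2 ≤ R := by
    rw [hRdef]
    have : (0 : ℝ) ≤ K := Nat.cast_nonneg _
    linarith only
  have hR0 : 0 < R := by linarith
  obtain ⟨κ, π₀, δ₀, C₁, X₁, hκ, hκ1, hπ, hδ₀, hC₁, hflat⟩ :=
    hFL n K c (ε / (2 * R)) D hc (by positivity)
  obtain ⟨CR, hCR, hrup⟩ := hR n K
  obtain ⟨CS, hCS, hsta⟩ := hS n K D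
  obtain ⟨Cu, hCu, hshp⟩ := shp_le n K
  obtain ⟨C, hCdef⟩ : ∃ C, C = CR + CS := ⟨_, rfl⟩
  have hC : 0 ≤ C := by rw [hCdef]; linarith
  obtain ⟨m, hm⟩ : ∃ m : ℕ, m = 2 * (K + 1) := ⟨_, rfl⟩
  have hmR : (m : ℝ) = R := by rw [hm, hRdef]; push_cast; ring
  refine ⟨κ, π₀, δ₀, (R + 2) * (2 * Cu + C) + R * C₁, max X₁ (max (K + 1) (⌈2 * R * C / ε⌉₊ + 1)),
    hκ, hκ1, hπ, hδ₀, by positivity, ?_⟩
  intro d a₀ P X δ hX haP hOK hF hFP hNF
  have hX₁ : X₁ ≤ X := (le_max_left _ _).trans hX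
  have hKX : K + 1 ≤ X := ((le_max_left _ _).trans (le_max_right _ _)).trans hX
  have hXc : ⌈2 * R * C / ε⌉₊ + 1 ≤ X := ((le_max_right _ _).trans (le_max_right _ _)).trans hX
  have hp := hOK.law
  have hX1 : 1 ≤ X := by omega
  have hX1r : (1 : ℝ) ≤ X := by exact_mod_cast hX1
  have hXr : (0 : ℝ) < X := by linarith only [hX1r]
  have hPa : (0 : ℝ) ≤ (P : ℝ) - a₀ := by
    have : (a₀ : ℝ) ≤ P := by exact_mod_cast haP
    linarith only [this]
  obtain ⟨s, hs⟩ : ∃ s, s = X / (K + 1) := ⟨_, rfl⟩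
  have hs0 : 0 < s := by rw [hs]; exact Nat.div_pos hKX (by omega)
  have hsK : (K + 1) * s ≤ X := by rw [hs]; exact Nat.mul_div_le X (K + 1)
  have hsX : s ≤ X := le_trans (Nat.le_mul_of_pos_left _ (by omega)) hsK
  have hXm : X ≤ m * s := by
    have h1 := Nat.lt_succ_self (X / (K + 1))
    have h2 : X < (K + 1) * (s + 1) := by
      rw [hs]
      exact Nat.lt_mul_div_succ X (by omega)
    have h3 : (K + 1) * (s + 1) ≤ m * s := by
      rw [hm]
      have : s + 1 ≤ 2 * s := by omega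
      calc (K + 1) * (s + 1) ≤ (K + 1) * (2 * s) := Nat.mul_le_mul_left _ this
        _ = _ := by ring
    omega
  have hδ0 : 0 ≤ δ := (df_nonneg d hp (by omega)).trans (df_le_of_full d hF)
  have hMi : ∀ a, 0 ≤ d.Mi a P X := fun a => Pool.CLU.MI_nonneg hp.nonneg _ _ _
  have hch := chain (fun a => CH d.P (d.ctx a P) (fun ω => (d.W ω, d.pnt P ω)))
    (fun a => CH d.P (d.shp a (P + X)) (d.ctx a P)) a₀ P s m X C (Cu * (X + 1)) hs0 hsX hXm haP
    hC (by positivity) (by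
      intro a a' h1 h2 h3 h4
      have hKs : K * (a - a') ≤ X := by
        calc K * (a - a') ≤ (K + 1) * s := Nat.mul_le_mul (by omega) (by omega)
          _ ≤ X := hsK
      have k1 := hrup d a' P X (a - a') hp hOK.deg hKs
      have e1 : a' + (a - a') = a := by omega
      rw [e1] at k1
      have k2 := CH_le_add hp.nonneg (d.ctx a' P) (fun ω => (d.shp a (P + X) ω, d.ctx a P ω))
        (fun ω => (d.W ω, d.pnt P ω))
      have k3 := CH_chain hp.nonneg (d.shp a (P + X)) (d.ctx a P) (fun ω => (d.W ω, d.pnt P ω))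
      have k4 : CH d.P (d.shp a (P + X)) (fun ω => (d.ctx a P ω, (d.W ω, d.pnt P ω))) ≤
          CH d.P (d.shp a (P + X)) (d.ctx a P) :=
        CH_mono_cond hp.nonneg fun ω ω' _ _ h => (Prod.ext_iff.mp h).1
      have k5 : CH d.P (d.ctx a' P)
          (fun ω => ((d.shp a (P + X) ω, d.ctx a P ω), (d.W ω, d.pnt P ω))) ≤
          CH d.P (d.ctx a' P) (fun ω => (d.ctx a P ω, d.shp a (P + X) ω)) := by
        refine CH_mono_cond hp.nonneg fun ω ω' _ _ h => ?_
        simp only [Prod.mk.injEq] at h ⊢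
        exact ⟨h.1.2, h.1.1⟩
      have : CR ≤ C := by rw [hCdef]; linarith only [hCS]
      linarith only [hCS, hCdef, k1, k2, k3, k4, k5])
    (fun a _ _ => hshp d a P X hp hOK.deg)
    (fun a => CH_nonneg hp.nonneg _ _) (by
      have := hsta d a₀ P (P + X) hOK haP (by omega)
      have : CS ≤ C := by rw [hCdef]; linarith only [hCR]
      linarith)
  have hfl := hflat d a₀ P X δ hX₁ haP hOK hF hFP hNF
  obtain ⟨Sm, hSm⟩ : ∃ S : ℝ, S = ∑ a ∈ Ico (a₀ + X) (P + 1), d.Mi a P X := ⟨_, rfl⟩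
  have hS0 : 0 ≤ Sm := by rw [hSm]; exact Finset.sum_nonneg fun a _ => hMi a
  rw [← hSm] at hfl ⊢
  obtain ⟨Ψ, hΨ⟩ : ∃ Ψ, Ψ = CH d.P (d.ctx a₀ P) (fun ω => (d.W ω, d.pnt P ω)) := ⟨_, rfl⟩
  rw [← hΨ] at hch ⊢
  rw [Finset.sum_add_distrib] at hch
  have hcard : ∑ _a ∈ Ico (a₀ + X) (P + 1), C ≤ C * ((P : ℝ) - a₀) := by
    rw [Finset.sum_const, nsmul_eq_mul, Nat.card_Ico]
    have h1 : ((P + 1 - (a₀ + X) : ℕ) : ℝ) ≤ (P : ℝ) - a₀ := by
      have h2 : P + 1 - (a₀ + X) ≤ P - a₀ := by omega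
      have h3 : ((P + 1 - (a₀ + X) : ℕ) : ℝ) ≤ ((P - a₀ : ℕ) : ℝ) := by exact_mod_cast h2
      rwa [Nat.cast_sub haP] at h3
    nlinarith only [hCdef, hCR, h1, hCS]
  have hs0r : (0 : ℝ) < s := by exact_mod_cast hs0
  have hXs : (X : ℝ) ≤ R * s := by
    rw [← hmR]
    exact_mod_cast hXm
  -- division by `s`
  have h1 : s * Ψ ≤ s * ((R + 2) * (Cu * (X + 1) + C)) + (ε / (2 * R) * X * ((P : ℝ) - a₀) +
      C₁ * X * (X + δ) + C₁ * Sm) + C * ((P : ℝ) - a₀) := by
    rw [hmR] at hch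
    linarith only [hfl, hch, hcard]
  have h2 : ε / (2 * R) * X * ((P : ℝ) - a₀) ≤ s * (ε / 2 * ((P : ℝ) - a₀)) := by
    have e1 : ε / (2 * R) * X * ((P : ℝ) - a₀) = ε / (2 * R) * ((P : ℝ) - a₀) * X := by ring
    have e2 : s * (ε / 2 * ((P : ℝ) - a₀)) = ε / (2 * R) * ((P : ℝ) - a₀) * (R * s) := by
      field_simp
    rw [e1, e2]
    exact mul_le_mul_of_nonneg_left hXs (by positivity)
  have h3 : C₁ * X * (X + δ) ≤ s * (R * C₁ * (X + δ)) := by
    have e1 : C₁ * X * (X + δ) = C₁ * (X + δ) * X := by ring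
    have e2 : s * (R * C₁ * (X + δ)) = C₁ * (X + δ) * (R * s) := by ring
    rw [e1, e2]
    exact mul_le_mul_of_nonneg_left hXs (by positivity)
  have h4 : C₁ * Sm ≤ s * (R * C₁ / X * Sm) := by
    have e1 : s * (R * C₁ / X * Sm) = C₁ * Sm * ((R * s) / X) := by field_simp
    have e2 : 1 ≤ (R * s) / X := by rw [le_div_iff₀ hXr]; linarith only [hXs]
    rw [e1]
    have : 0 ≤ C₁ * Sm := by positivity
    nlinarith only [e2, this]
  have h5 : C * ((P : ℝ) - a₀) ≤ s * (ε / 2 * ((P : ℝ) - a₀)) := by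
    have e1 : C ≤ s * (ε / 2) := by
      have e2 : 2 * R * C / ε ≤ X := by
        have := Nat.le_ceil (2 * R * C / ε)
        have h3 : ((⌈2 * R * C / ε⌉₊ + 1 : ℕ) : ℝ) ≤ X := by exact_mod_cast hXc
        push_cast at h3
        linarith only [this, h3]
      rw [div_le_iff₀ hε] at e2
      have e3 : 2 * R * C ≤ R * s * ε := e2.trans (mul_le_mul_of_nonneg_right hXs hε.le)
      have e4 : R * (2 * C) ≤ R * (s * ε) := by linarith only [e3]
      have e5 := le_of_mul_le_mul_left e4 hR0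
      linarith only [e5]
    calc C * ((P : ℝ) - a₀) ≤ s * (ε / 2) * ((P : ℝ) - a₀) := mul_le_mul_of_nonneg_right e1 hPa
      _ = _ := by ring
  have h6 : s * Ψ ≤ s * ((R + 2) * (Cu * (X + 1) + C) + ε * ((P : ℝ) - a₀) +
      R * C₁ * (X + δ) + R * C₁ / X * Sm) := by
    have e1 : s * ((R + 2) * (Cu * (X + 1) + C) + ε * ((P : ℝ) - a₀) +
      R * C₁ * (X + δ) + R * C₁ / X * Sm) = s * ((R + 2) * (Cu * (X + 1) + C)) +
      s * (ε / 2 * ((P : ℝ) - a₀)) + s * (ε / 2 * ((P : ℝ) - a₀)) + s * (R * C₁ * (X + δ)) +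
      s * (R * C₁ / X * Sm) := by ring
    rw [e1]
    linarith only [h1, h2, h3, h4, h5]
  have h7 := le_of_mul_le_mul_left h6 hs0r
  have h8 : (R + 2) * (Cu * (X + 1) + C) ≤ (R + 2) * (2 * Cu + C) * (X + δ) := by
    have e1 : Cu * (X + 1) + C ≤ (2 * Cu + C) * X := by nlinarith only [hCdef, hCR, hX1r, hCS, hCu]
    have e2 : (2 * Cu + C) * X ≤ (2 * Cu + C) * (X + δ) :=
      mul_le_mul_of_nonneg_left (by linarith only [hδ0]) (by positivity)
    calc _ ≤ (R + 2) * ((2 * Cu + C) * (X + δ)) :=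
          mul_le_mul_of_nonneg_left (e1.trans e2) (by linarith only [hRdef])
      _ = _ := by ring
  have h9 : R * C₁ / X * Sm ≤ ((R + 2) * (2 * Cu + C) + R * C₁) / X * Sm := by
    refine mul_le_mul_of_nonneg_right ?_ hS0
    refine div_le_div_of_nonneg_right ?_ hXr.le
    have : 0 ≤ (R + 2) * (2 * Cu + C) := by positivity
    linarith only [this]
  have h10 : ((R + 2) * (2 * Cu + C) + R * C₁) * (X + δ) =
      (R + 2) * (2 * Cu + C) * (X + δ) + R * C₁ * (X + δ) := by ring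
  linarith only [h7, h8, h9]

end Pool.OVN
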