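import Mathlib

/-!
# OVN, row R4: a block all of whose sub-blocks have many unsaturated rows

If the density of a zone is at least `c` then at one of boundedly many scales there is a block all
of whose `q` sub-blocks have density at least `c / 2`.
-/

set_option autoImplicit false

namespace Pool.OVN

open Finset

/-- The number of scales. -/
theorem exists_scales (q : ℕ) (hq : 1 ≤ q) (c : ℝ) (hc : 0 < c) :
    ∃ M₀ : ℕ, ∀ M ≥ M₀, ((q : ℝ) - 1) ^ M < c / 2 * (q : ℝ) ^ M := by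
  have hq0 : (0 : ℝ) < q := by exact_mod_cast hq
  have hq1 : (1 : ℝ) ≤ q := by exact_mod_cast hq
  have h1 : ((q : ℝ) - 1) / q < 1 := by
    rw [div_lt_one hq0]
    linarith
  have h0 : 0 ≤ ((q : ℝ) - 1) / q := div_nonneg (by linarith) hq0.le
  obtain ⟨M₀, hM₀⟩ := exists_pow_lt_of_lt_one (half_pos hc) h1
  refine ⟨M₀, fun M hM => ?_⟩
  have h2 : (((q : ℝ) - 1) / q) ^ M ≤ (((q : ℝ) - 1) / q) ^ M₀ :=
    pow_le_pow_of_le_one h0 h1.le hM
  have h3 := h2.trans_lt hM₀
  rw [div_pow, div_lt_iff₀ (by positivity)] at h3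
  exact h3

/-- **(PIG)**, cumulative form: `h` grows by at most `1` per row. -/
theorem pig (q : ℕ) (hq : 1 ≤ q) (c : ℝ) (hc0 : 0 ≤ c) (M : ℕ) (hM : ((q : ℝ) - 1) ^ M < c / 2 * (q : ℝ) ^ M)
    (h : ℕ → ℝ) (h1 : ∀ r < q ^ M, h (r + 1) - h r ≤ 1)
    (hc : c * (q : ℝ) ^ M ≤ h (q ^ M) - h 0) :
    ∃ n < M, ∃ k < q ^ (M - n - 1), ∀ j < q,
      c / 2 * (q : ℝ) ^ n ≤ h ((k * q + j + 1) * q ^ n) - h ((k * q + j) * q ^ n) := by
  by_contra hcon
  push Not at hcon
  have key : ∀ n ≤ M, ∀ k < q ^ (M - n),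
      h ((k + 1) * q ^ n) - h (k * q ^ n) ≤ c / 2 * (q : ℝ) ^ n + ((q : ℝ) - 1) ^ n := by
    intro n
    induction n with
    | zero =>
      intro _ k hk
      rw [Nat.sub_zero] at hk
      have := h1 k hk
      simp only [pow_zero, mul_one]
      linarith
    | succ n ih =>
      intro hn k hk
      have hq0 : 0 < q := by omega
      have hq1 : (0 : ℝ) ≤ (q : ℝ) - 1 := by
        have : (1 : ℝ) ≤ q := by exact_mod_cast hq
        linarith
      have hk' : k < q ^ (M - n - 1) := by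
        have : M - (n + 1) = M - n - 1 := by omega
        rwa [this] at hk
      obtain ⟨j₀, hj₀, hlt⟩ := hcon n (by omega) k hk'
      have hidx : ∀ j < q, k * q + j < q ^ (M - n) := by
        intro j hj
        have e1 : q ^ (M - n) = q ^ (M - n - 1) * q := by
          rw [← pow_succ]
          congr 1
          omega
        rw [e1]
        calc k * q + j < k * q + q := by omega
          _ = (k + 1) * q := by ring
          _ ≤ _ := Nat.mul_le_mul_right _ hk'
      have hsum : (∑ j ∈ range q, (h ((k * q + j + 1) * q ^ n) - h ((k * q + j) * q ^ n))) =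
          h ((k + 1) * q ^ (n + 1)) - h (k * q ^ (n + 1)) := by
        have e1 := Finset.sum_range_sub (fun j => h ((k * q + j) * q ^ n)) q
        have e2 : (k * q + q) * q ^ n = (k + 1) * q ^ (n + 1) := by ring
        have e3 : (k * q + 0) * q ^ n = k * q ^ (n + 1) := by ring
        simp only [e2, e3] at e1
        rw [← e1]
        refine Finset.sum_congr rfl fun j _ => ?_
        rw [add_assoc]
      rw [← hsum]
      rw [← Finset.add_sum_erase _ _ (Finset.mem_range.2 hj₀)]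
      have hrest : (∑ j ∈ (range q).erase j₀,
          (h ((k * q + j + 1) * q ^ n) - h ((k * q + j) * q ^ n))) ≤
          ∑ _j ∈ (range q).erase j₀, (c / 2 * (q : ℝ) ^ n + ((q : ℝ) - 1) ^ n) := by
        refine Finset.sum_le_sum fun j hj => ?_
        have hj' : j < q := Finset.mem_range.1 (Finset.mem_of_mem_erase hj)
        exact ih (by omega) (k * q + j) (hidx j hj')
      rw [Finset.sum_const, Finset.card_erase_of_mem (Finset.mem_range.2 hj₀), Finset.card_range,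
        nsmul_eq_mul, Nat.cast_sub hq, Nat.cast_one] at hrest
      have e4 : c / 2 * (q : ℝ) ^ (n + 1) + ((q : ℝ) - 1) ^ (n + 1) =
          c / 2 * (q : ℝ) ^ n + ((q : ℝ) - 1) * (c / 2 * (q : ℝ) ^ n + ((q : ℝ) - 1) ^ n) := by
        ring
      rw [e4]
      linarith
  have h2 := key M le_rfl 0 (by simp)
  rw [zero_add, one_mul, zero_mul] at h2
  have h3 : c / 2 * (q : ℝ) ^ M = c * (q : ℝ) ^ M / 2 := by ring
  linarith

/-- **(PIG)** for densities of blocks. -/
theorem pig_sum (q : ℕ) (hq : 1 ≤ q) (c : ℝ) (hc0 : 0 ≤ c) (M : ℕ)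
    (hM : ((q : ℝ) - 1) ^ M < c / 2 * (q : ℝ) ^ M)
    (f : ℕ → ℝ) (h1 : ∀ r < q ^ M, f r ≤ 1)
    (hc : c * (q : ℝ) ^ M ≤ ∑ r ∈ range (q ^ M), f r) :
    ∃ n < M, ∃ k < q ^ (M - n - 1), ∀ j < q,
      c / 2 * (q : ℝ) ^ n ≤ ∑ r ∈ Ico ((k * q + j) * q ^ n) ((k * q + j + 1) * q ^ n), f r := by
  obtain ⟨n, hn, k, hk, h2⟩ := pig q hq c hc0 M hM (fun r => ∑ i ∈ range r, f i)
    (fun r hr => by
      rw [Finset.sum_range_succ]
      have := h1 r hr
      linarith) (by simpa using hc)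
  refine ⟨n, hn, k, hk, fun j hj => ?_⟩
  rw [Finset.sum_Ico_eq_sub _ (Nat.mul_le_mul_right _ (Nat.le_succ _))]
  exact h2 j hj

/-- **(PIG)** for a function of the rows: the zone starts at `P₀` and has `q ^ M` units of length
`u`; `D` is the cumulative deficit, at most `B` per unit. -/
theorem pig_rows (q : ℕ) (hq : 1 ≤ q) (c : ℝ) (hc0 : 0 ≤ c) (M : ℕ)
    (hM : ((q : ℝ) - 1) ^ M < c / 2 * (q : ℝ) ^ M) (u P₀ : ℕ) (B : ℝ) (hB : 0 < B)
    (D : ℕ → ℝ) (h1 : ∀ r < q ^ M, D (P₀ + (r + 1) * u) - D (P₀ + r * u) ≤ B)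
    (hc : c * (q : ℝ) ^ M * B ≤ D (P₀ + q ^ M * u) - D P₀) :
    ∃ n < M, ∃ k < q ^ (M - n - 1), ∀ j < q,
      c / 2 * (q : ℝ) ^ n * B ≤
        D (P₀ + (k * q ^ (n + 1) + (j + 1) * q ^ n) * u) -
          D (P₀ + (k * q ^ (n + 1) + j * q ^ n) * u) := by
  obtain ⟨n, hn, k, hk, h2⟩ := pig q hq c hc0 M hM (fun r => D (P₀ + r * u) / B)
    (fun r hr => by
      rw [← sub_div, div_le_one hB]
      exact h1 r hr) (by
      rw [← sub_div, le_div_iff₀ hB]
      simpa using hc)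
  refine ⟨n, hn, k, hk, fun j hj => ?_⟩
  have h3 := h2 j hj
  rw [← sub_div, le_div_iff₀ hB] at h3
  have e1 : (k * q + j + 1) * q ^ n = k * q ^ (n + 1) + (j + 1) * q ^ n := by ring
  have e2 : (k * q + j) * q ^ n = k * q ^ (n + 1) + j * q ^ n := by ring
  rw [e1, e2] at h3
  exact h3

end Pool.OVN
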